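import Pool.Agent.Q304.SH.Closed

/-!
MP_27e890_gt, Q1 (answer: yes). In ZFC there is a zero-dimensional separable metrizable space which
is a countable union of homogeneous subspaces but not a countable union of closed homogeneous
subspaces.
-/

namespace Pool.Agent.Results.MP_27e890_gt.NotClosedWitnesses

open Pool.Agent.Q304.SH

/-- There is a subspace `X` of the Cantor set `(ℤ/2)^ℕ` which is the union of countably many
homogeneous subspaces, but not the union of countably many homogeneous subspaces that are closed in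
`X`. -/
theorem result : ∃ X : Set (ℕ → ZMod 2),
    (∃ Y : ℕ → Set (ℕ → ZMod 2), (∀ n, ∀ x y : Y n, ∃ h : Y n ≃ₜ Y n, h x = y) ∧
      X = ⋃ n, Y n) ∧
    ¬ ∃ Y : ℕ → Set (ℕ → ZMod 2), (∀ n, ∀ x y : Y n, ∃ h : Y n ≃ₜ Y n, h x = y) ∧
      (∀ n, ∃ L : Set (ℕ → ZMod 2), IsClosed L ∧ Y n = X ∩ L) ∧ X = ⋃ n, Y n := by
  obtain ⟨p⟩ := exists_pts
  obtain ⟨d, hd⟩ := exists_dense_seq' p
  refine ⟨XB p (Set.range d), XB_sigma p d, ?_⟩
  rintro ⟨Y, hY, hL, hX⟩
  choose L hLc hLY using hL
  refine XB_not_union p d hd L hLc (fun n => ?_) ?_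
  · rw [← hLY n]
    exact hY n
  · rw [hX]
    refine Set.iUnion_congr fun n => ?_
    rw [← hX]
    exact hLY n

end Pool.Agent.Results.MP_27e890_gt.NotClosedWitnesses
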